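import Pool.Agent.R217.PC.Conc

set_option autoImplicit false

open MeasureTheory Filter Topology

namespace Pool.Agent.Results.MP_9ab776_an.GlobalConcentration

open Pool.Agent.R217.BN (E)
open Pool.Agent.R217.PC (lat LES)

/-- Full answer to Q1 (the assertion is true, for all `N ≥ 2` and all subcritical `p > 2`): if
`ε n → 0` and `u n` (with gradient `G n`) is a least energy solution of `(E_{ε n})`, then there are
`y n ∈ ℤ^N` such that the translated functions `u n (· + y n)` concentrate globally at the origin,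
in the `H¹` and in the `L^p` sense. -/
theorem result (N : ℕ) (hN : 2 ≤ N) (p : ℝ) (hp : 2 < p)
    (hp' : 3 ≤ N → p < 2 * (N : ℝ) / ((N : ℝ) - 2))
    (ε : ℕ → ℝ) (hε : ∀ n, ε n ∈ Set.Ioo (0 : ℝ) (1 / 2)) (hlim : Tendsto ε atTop (𝓝 0))
    (u : ℕ → E N → ℝ) (G : ℕ → E N → E N) (h : ∀ n, LES N p (ε n) (u n) (G n)) :
    ∃ y : ℕ → Fin N → ℤ, ∀ δ : ℝ, 0 < δ →
      Tendsto (fun n =>
        (∫ x in Metric.ball (0 : E N) δ, (‖G n (x + lat (y n))‖ ^ 2 + u n (x + lat (y n)) ^ 2)) /
          ∫ x, (‖G n (x + lat (y n))‖ ^ 2 + u n (x + lat (y n)) ^ 2)) atTop (𝓝 1) ∧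
      Tendsto (fun n => (∫ x in Metric.ball (0 : E N) δ, |u n (x + lat (y n))| ^ p) /
          ∫ x, |u n (x + lat (y n))| ^ p) atTop (𝓝 1) := by
  have hq' : ((N:ℝ) - 2) * p < 2 * N := by
    rcases Nat.lt_or_ge 2 N with h2 | h2
    · have h3 : (0:ℝ) < (N:ℝ) - 2 := by
        have : (3:ℝ) ≤ N := by exact_mod_cast h2
        linarith
      have := hp' h2
      rw [lt_div_iff₀ h3] at this
      linarith
    · have h3 : N = 2 := le_antisymm h2 hN
      subst h3
      norm_num
  exact Pool.Agent.R217.PC.concentration hN hp hq' (fun n => (hε n).1)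
    (fun n => (hε n).2.le.trans (by norm_num)) hlim h

end Pool.Agent.Results.MP_9ab776_an.GlobalConcentration
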